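import Pool.Agent.H28.RC.Targets3
import Pool.Agent.H92.RC.TWT

/-!
# Artin reciprocity, module CCH: characters of cyclotomic type
-/

set_option autoImplicit false

open NumberField Filter Topology

namespace Pool.Agent.H94.RC

open Pool.Agent.H28.RC

theorem pf_CCH : T_CCH := by
  intro F _ _ m q _ θ hm hq
  have hcop : ∀ I : Ideal (𝓞 F), I ≠ ⊥ → I ⊔ m = ⊤ → (Ideal.absNorm I).Coprime q := by
    intro I hI hIm
    refine Pool.Agent.H92.RC.absNorm_coprime q I hI ?_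
    rw [eq_top_iff, ← hIm]
    exact sup_le_sup_left hq I
  have hmulsup : ∀ I J : Ideal (𝓞 F), I ⊔ m = ⊤ → J ⊔ m = ⊤ → I * J ⊔ m = ⊤ := by
    intro I J h1 h2
    rw [← Ideal.isCoprime_iff_sup_eq] at *
    exact h1.mul_left h2
  refine ⟨hm, ?_, ?_, ?_, ?_, ?_, ?_⟩
  · rw [if_pos ⟨top_ne_bot, by rw [top_sup_eq]⟩]
    have : (Ideal.absNorm (⊤ : Ideal (𝓞 F))) = 1 := Ideal.absNorm_top
    rw [this, Nat.cast_one, map_one]
  · intro I J
    by_cases hI : I ≠ ⊥ ∧ I ⊔ m = ⊤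
    · by_cases hJ : J ≠ ⊥ ∧ J ⊔ m = ⊤
      · rw [if_pos hI, if_pos hJ, if_pos ⟨mul_ne_zero hI.1 hJ.1, hmulsup I J hI.2 hJ.2⟩, map_mul,
          Nat.cast_mul, map_mul]
      · rw [if_neg hJ, mul_zero, if_neg]
        rintro ⟨h1, h2⟩
        refine hJ ⟨fun h => h1 (by rw [h, Ideal.mul_bot]), ?_⟩
        rw [eq_top_iff, ← h2]
        exact sup_le_sup_right Ideal.mul_le_right m
    · rw [if_neg hI, zero_mul, if_neg]
      rintro ⟨h1, h2⟩
      refine hI ⟨fun h => h1 (by rw [h, Ideal.bot_mul]), ?_⟩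
      rw [eq_top_iff, ← h2]
      exact sup_le_sup_right Ideal.mul_le_left m
  · rw [if_neg]
    rintro ⟨h1, -⟩
    exact h1 rfl
  · intro I hI hIm
    rw [if_pos ⟨hI, hIm⟩]
    have h := hcop I hI hIm
    exact DirichletCharacter.unit_norm_eq_one θ (ZMod.unitOfCoprime _ h)
  · intro I hI
    rw [if_neg]
    rintro ⟨-, h⟩
    exact hI h
  · intro a ha ham hpos
    have hI : Ideal.span {a} ≠ ⊥ := by
      rwa [Ne, Ideal.span_singleton_eq_bot]
    have hIm : Ideal.span {a} ⊔ m = ⊤ := by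
      rw [Ideal.eq_top_iff_one]
      have h1 : a ∈ Ideal.span {a} ⊔ m := Ideal.mem_sup_left (Ideal.mem_span_singleton_self a)
      have h2 : a - 1 ∈ Ideal.span {a} ⊔ m := Ideal.mem_sup_right ham
      have h3 := Ideal.sub_mem _ h1 h2
      rwa [sub_sub_cancel] at h3
    rw [if_pos ⟨hI, hIm⟩, Pool.Agent.H92.RC.absNorm_cong_one q a ha (hq ham) hpos, map_one]

end Pool.Agent.H94.RC
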