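import Pool.Agent.H28.RC.Targets3

/-!
# Artin reciprocity, module FR4: the primes above an unramified prime in the fixed field of a
normal subgroup
-/

set_option autoImplicit false

open NumberField Filter Topology

namespace Pool.Agent.H94.RC

open Pool.Agent.H28.RC

section

variable {F Ω : Type} [Field F] [NumberField F] [Field Ω] [NumberField Ω] [Algebra F Ω]

theorem restrict_mem (N : Subgroup (Ω ≃ₐ[F] Ω))
    (h : Ω ≃ₐ[IntermediateField.fixedField N] Ω) : h.restrictScalars F ∈ N := by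
  have h1 : h.restrictScalars F ∈ (IntermediateField.fixedField N).fixingSubgroup := by
    rw [IntermediateField.mem_fixingSubgroup_iff]
    intro x hx
    exact h.commutes ⟨x, hx⟩
  rwa [IntermediateField.fixingSubgroup_fixedField] at h1

theorem exists_restrict (N : Subgroup (Ω ≃ₐ[F] Ω)) (g : Ω ≃ₐ[F] Ω) (hg : g ∈ N) :
    ∃ h : Ω ≃ₐ[IntermediateField.fixedField N] Ω, h.restrictScalars F = g := by
  have h1 : g ∈ (IntermediateField.fixedField N).fixingSubgroup := by
    rwa [IntermediateField.fixingSubgroup_fixedField]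
  refine ⟨IntermediateField.fixingSubgroupEquiv (IntermediateField.fixedField N) ⟨g, h1⟩, ?_⟩
  ext x
  rfl

theorem perfect_residue (P : Ideal (𝓞 F)) [hP : P.IsPrime] (h0 : P ≠ ⊥) :
    PerfectField P.ResidueField := by
  have hm : P.IsMaximal := hP.isMaximal h0
  have hfin : Finite (𝓞 F ⧸ P) := Ideal.finiteQuotientOfFreeOfNeBot P h0
  have : Finite P.ResidueField :=
    Finite.of_surjective _ P.bijective_algebraMap_quotient_residueField.surjective
  exact PerfectField.ofFinite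

theorem two_le_absNorm (P : Ideal (𝓞 F)) (hP : P.IsPrime) (h0 : P ≠ ⊥) :
    2 ≤ Ideal.absNorm P := by
  have ha : Ideal.absNorm P ≠ 0 := by
    rw [Ne, Ideal.absNorm_eq_zero_iff]
    exact h0
  have hb : Ideal.absNorm P ≠ 1 := by
    rw [Ne, Ideal.absNorm_eq_one_iff]
    exact hP.ne_top
  omega

end

theorem pf_FR4 : T_FRE → T_FR1 → T_FR2 → T_FR4 := by
  intro hFRE hFR1 hFR2 F Ω _ _ _ _ _ _ m N hN hU P hP hP0 hPm
  have hgal : IsGalois F (IntermediateField.fixedField N) := inferInstance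
  have hgal2 : IsGalois (IntermediateField.fixedField N) Ω :=
    IsGalois.tower_top_of_isGalois F (IntermediateField.fixedField N) Ω
  have h2 := two_le_absNorm P hP hP0
  have hmax : P.IsMaximal := hP.isMaximal hP0
  have hne : ∀ 𝔓 ∈ Ideal.primesOver P (𝓞 (IntermediateField.fixedField N)), 𝔓 ≠ ⊥ := by
    rintro 𝔓 ⟨h3, h4⟩ rfl
    apply hP0
    rw [h4.over]
    exact Ideal.under_bot _ _
  constructor
  · rintro ⟨g0, hg0, hg0F⟩
    obtain ⟨h', hh'⟩ := exists_restrict N g0 hg0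
    obtain ⟨𝔓₀, f, h, hp, hu, hf, hf1, -, habs, -, -⟩ := hFR2 F (IntermediateField.fixedField N) Ω m
      hU P g0 hg0F hPm 1 h' (by rw [hh', pow_one])
    have hf1' : f = 1 := Nat.dvd_one.1 hf1
    rw [hf1', pow_one] at habs
    have hl : 𝔓₀.LiesOver P := ⟨hu.symm⟩
    have h0 : 𝔓₀ ≠ ⊥ := hne 𝔓₀ ⟨hp, hl⟩
    have hm0 : 𝔓₀.IsMaximal := hp.isMaximal h0
    have hi : 𝔓₀.inertiaDeg (𝓞 F) = 1 := by
      rw [← Ideal.inertiaDeg'_eq_inertiaDeg P 𝔓₀]
      have h5 := Ideal.absNorm_eq_pow_inertiaDeg'_of_liesOver 𝔓₀ P hP hP0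
      rw [habs] at h5
      have h6 : Ideal.absNorm P ^ 1 = Ideal.absNorm P ^ P.inertiaDeg' 𝔓₀ := by rwa [pow_one]
      exact (Nat.pow_right_injective h2 h6).symm
    constructor
    · rintro 𝔓 ⟨h3, h4⟩
      have h5 : 𝔓 ≠ ⊥ := hne 𝔓 ⟨h3, h4⟩
      have h6 : 𝔓.IsMaximal := h3.isMaximal h5
      rw [Ideal.absNorm_eq_pow_inertiaDeg'_of_liesOver 𝔓 P hP hP0,
        Ideal.inertiaDeg'_eq_inertiaDeg P 𝔓,
        Ideal.inertiaDeg_eq_of_isGaloisGroup P 𝔓 𝔓₀
          ((IntermediateField.fixedField N) ≃ₐ[F] (IntermediateField.fixedField N)), hi, pow_one]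
    · have hperf := perfect_residue P hP0
      have hc := Ideal.ncard_primesOver_mul_ramificationIdxIn_mul_inertiaDegIn P
        (𝓞 (IntermediateField.fixedField N))
        ((IntermediateField.fixedField N) ≃ₐ[F] (IntermediateField.fixedField N))
      rw [Ideal.inertiaDegIn_eq_inertiaDeg P 𝔓₀
        ((IntermediateField.fixedField N) ≃ₐ[F] (IntermediateField.fixedField N)), hi,
        mul_one] at hc
      -- unramified
      obtain ⟨⟨Q, hQ, hQl⟩⟩ := (inferInstance : Nonempty (Ideal.primesOver 𝔓₀ (𝓞 Ω)))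
      have hQP : Q.LiesOver P := Ideal.LiesOver.trans Q 𝔓₀ P
      have hQ0 : Q ≠ ⊥ := by
        rintro rfl
        apply h0
        rw [hQl.over]
        exact Ideal.under_bot _ _
      have hin : Nat.card (Q.inertia (Ω ≃ₐ[F] Ω)) = 1 := by
        have hb : Q.inertia (Ω ≃ₐ[F] Ω) = ⊥ := by
          rw [eq_bot_iff]
          intro g hg
          rw [Subgroup.mem_bot]
          refine hU Q hQ hQ0 (by rw [← hQP.over]; exact hPm) g fun x => ?_
          exact hg x
        rw [hb]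
        exact Subgroup.card_bot
      have h7 := Ideal.card_inertia_eq_ramificationIdxIn (G := (Ω ≃ₐ[F] Ω)) P Q
      rw [hin] at h7
      have h8 := Ideal.ramificationIdxIn_mul_ramificationIdxIn (p := P) 𝔓₀
        ((IntermediateField.fixedField N) ≃ₐ[F] (IntermediateField.fixedField N)) (𝓞 Ω)
        (Ω ≃ₐ[F] Ω) (Ω ≃ₐ[IntermediateField.fixedField N] Ω)
      rw [← h7] at h8
      rw [Nat.eq_one_of_mul_eq_one_right h8, mul_one] at hc
      rw [hc, Subgroup.index]
      exact (Nat.card_congr (IsGalois.normalAutEquivQuotient N).toEquiv).symm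
  · intro hno 𝔓 h𝔓 habs
    obtain ⟨h3, h4⟩ := h𝔓
    have h0 := hne 𝔓 ⟨h3, h4⟩
    obtain ⟨h, hh⟩ := (hFRE (IntermediateField.fixedField N) Ω).1 𝔓 h3 h0
    have hu : 𝔓.under (𝓞 F) = P := h4.over.symm
    obtain ⟨g, f, hf, hg, -, h5, h6⟩ := hFR1 F (IntermediateField.fixedField N) Ω m hU 𝔓 h hh
      (by rw [hu]; exact hPm)
    rw [hu, habs] at h5
    rw [hu] at hg
    have h7 : Ideal.absNorm P ^ 1 = Ideal.absNorm P ^ f := by rwa [pow_one]
    have h8 : 1 = f := Nat.pow_right_injective h2 h7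
    rw [← h8, pow_one] at h6
    exact hno ⟨g, h6 ▸ restrict_mem N h, hg⟩

end Pool.Agent.H94.RC
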