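import Pool.Agent.H28.RC.Targets3

/-!
# Artin reciprocity, module SUR: the Frobenius elements generate
-/

set_option autoImplicit false

open NumberField Filter Topology

namespace Pool.Agent.H94.RC

open Pool.Agent.H28.RC

lemma PR_ind {F : Type} [Field F] [NumberField F] (p q : Ideal (𝓞 F) → Prop)
    (i1 : DecidablePred p) (i2 : DecidablePred q) (h : ∀ P : PrI F, p P.1 ↔ q P.1) (s : ℝ) :
    PR (fun P => @ite ℝ (p P) (i1 P) 1 0) s = PR (fun P => @ite ℝ (q P) (i2 P) 1 0) s := by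
  unfold PR
  refine tsum_congr fun P => ?_
  by_cases hp : p P.1
  · simp only [if_pos hp, if_pos ((h P).1 hp)]
  · simp only [if_neg hp, if_neg (fun hq => hp ((h P).2 hq))]

lemma tendsto_log_inv_sub : Tendsto (fun s : ℝ => Real.log (1 / (s - 1))) (𝓝[>] 1) atTop := by
  refine Real.tendsto_log_atTop.comp ?_
  have h1 : Tendsto (fun s : ℝ => s - 1) (𝓝[>] 1) (𝓝[>] 0) := by
    refine tendsto_nhdsWithin_iff.2 ⟨?_, ?_⟩
    · have : Tendsto (fun s : ℝ => s - 1) (𝓝 1) (𝓝 (1 - 1)) := tendsto_id.sub_const 1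
      rw [sub_self] at this
      exact this.mono_left nhdsWithin_le_nhds
    · filter_upwards [self_mem_nhdsWithin] with s hs
      exact sub_pos.2 (Set.mem_Ioi.1 hs)
  have h2 := tendsto_inv_nhdsGT_zero.comp h1
  refine h2.congr fun s => ?_
  simp

theorem pf_SUR : T_FRE → T_SPL → T_SUR := by
  intro hFRE hSPL F Ω _ _ _ _ _ _ m μ hm hUR hμ
  obtain ⟨C, hC⟩ := hSPL F Ω m μ.ker inferInstance hm hUR
  obtain ⟨C', hC'⟩ := hSPL F Ω m ⊤ inferInstance hm hUR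
  have e : ∀ P : PrI F, (P.1 ⊔ m = ⊤ ∧ ∃ g ∈ μ.ker, Fro P.1 g) ↔
      (P.1 ⊔ m = ⊤ ∧ ∃ g ∈ (⊤ : Subgroup (Ω ≃ₐ[F] Ω)), Fro P.1 g) := by
    intro P
    constructor
    · rintro ⟨hP, g, -, hg⟩
      exact ⟨hP, g, Subgroup.mem_top _, hg⟩
    · rintro ⟨hP, g, -, hg⟩
      exact ⟨hP, g, MonoidHom.mem_ker.2 (hμ _ hP g hg), hg⟩
  have hlog := tendsto_log_inv_sub
  have hn : 1 ≤ μ.ker.index := Nat.one_le_iff_ne_zero.2 Subgroup.index_ne_zero_of_finite
  have hone : μ.ker.index = 1 := by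
    by_contra hne
    have h2 : (2 : ℝ) ≤ (μ.ker.index : ℝ) := by
      have : 2 ≤ μ.ker.index := by omega
      exact_mod_cast this
    have h3 := hlog.eventually_gt_atTop (C + μ.ker.index * |C'|)
    have h4 := hlog.eventually_gt_atTop 0
    obtain ⟨s, h5, h6, h7, h8⟩ := (hC.and (hC'.and (h3.and h4))).exists
    rw [PR_ind (fun P => P ⊔ m = ⊤ ∧ ∃ g ∈ μ.ker, Fro P g)
      (fun P => P ⊔ m = ⊤ ∧ ∃ g ∈ (⊤ : Subgroup (Ω ≃ₐ[F] Ω)), Fro P g) _
      (fun P => Classical.propDecidable _) e s] at h5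
    rw [Subgroup.index_top, Nat.cast_one, one_mul,
      PR_ind (fun P => P ⊔ m = ⊤ ∧ ∃ g ∈ (⊤ : Subgroup (Ω ≃ₐ[F] Ω)), Fro P g)
      (fun P => P ⊔ m = ⊤ ∧ ∃ g ∈ (⊤ : Subgroup (Ω ≃ₐ[F] Ω)), Fro P g) _
      (fun P => Classical.propDecidable _) (fun P => Iff.rfl) s] at h6
    set S := PR (F := F) (fun P => @ite ℝ (P ⊔ m = ⊤ ∧ ∃ g ∈ (⊤ : Subgroup (Ω ≃ₐ[F] Ω)), Fro P g)
        (Classical.propDecidable _) 1 0) s
    set L := Real.log (1 / (s - 1))
    set n : ℝ := (μ.ker.index : ℝ)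
    have h9 : -|C'| ≤ S - L := by
      have := (abs_le.1 h6).1
      have := le_abs_self C'
      linarith
    have h10 := (abs_le.1 h5).2
    nlinarith
  ext g
  have h := Subgroup.index_eq_one.1 hone
  have hg : g ∈ μ.ker := by rw [h]; exact Subgroup.mem_top _
  rw [MonoidHom.mem_ker.1 hg]
  rfl

end Pool.Agent.H94.RC
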